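import Pool.Agent.N612.SO.Defs
import Pool.Agent.N612.SO.Main

/-!
# Single-orbit locality is not bounded by a function of the locality (MP_cb1103_lc, Q1 and Q2)

`K = 𝔽_{2^t}` with `t = g_1 ⋯ g_m`, a product of distinct primes `g_j ≥ 5`, and `F = 𝔽_2`.  In the
subfield with `2^{g_j}` elements take six points with `∑ y = ∑ y^3 = 0 ≠ ∑ y^5`, and let `P` be the
set of all `f` whose values sum to zero over all affine images of the `m` six-point words.  It
contains the quadratic functions `Tr(a x^{1+2^i})` if `i` is `0` or `1` modulo each `g_j`, and does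
not contain all of them if `i` is `2` modulo `g_j` and `0` modulo the other `g_l`.  If `(α; S)` is a
single orbit characterization with `k` points, these facts give a `K`-linear functional on `K^k`
for every `j` which vanishes on the conjugates `(α_x^{2^i})_x`, `i ∈ {0,1}` modulo every `g_l`, but
not on a conjugate obtained by applying twice the Galois element belonging to `g_j`.  So the
`K`-spans of the conjugates grow strictly `m` times, and `k > m`.
-/

namespace Pool.Agent.Results.MP_cb1103_lc.SingleOrbitUnbounded

open Pool.Agent.N612.SO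

/-- For every `N` there are `t ≥ 1` and an affine-invariant property `P` of functions
`𝔽_{2^t} → 𝔽_2` which has a `6`-local characterization, such that the least `k'` for which `P` has
a `k'`-single orbit characterization (it exists) is greater than `N`. -/
theorem result : ∀ N : ℕ, ∃ t : ℕ, 0 < t ∧ ∃ P : Set (GaloisField 2 t → ZMod 2),
    AffineInvariant P ∧ HasLocalCharacterization 6 P ∧
      (∃ k' : ℕ, HasSingleOrbitCharacterization k' P) ∧
      ∀ k' : ℕ, HasSingleOrbitCharacterization k' P → N < k' := by
  intro N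
  have hinf : {p : ℕ | p.Prime ∧ 5 ≤ p}.Infinite := by
    rw [Set.infinite_iff_exists_gt] 
    intro a
    obtain ⟨p, hp, hpp⟩ := Nat.exists_infinite_primes (max (a + 1) 5)
    exact ⟨p, ⟨hpp, le_trans (le_max_right _ _) hp⟩,
      lt_of_lt_of_le (Nat.lt_succ_self a) (le_trans (le_max_left _ _) hp)⟩
  obtain ⟨s, hs, hcard⟩ := hinf.exists_subset_card_eq (N + 1)
  let e := (s.orderEmbOfFin hcard)
  have he : ∀ j, e j ∈ s := fun j => s.orderEmbOfFin_mem hcard j
  have hgp : ∀ j, (e j).Prime := fun j => (hs (he j)).1
  have hg5 : ∀ j, 5 ≤ e j := fun j => (hs (he j)).2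
  have ht : 0 < ∏ j, e j := Finset.prod_pos (fun j _ => (hgp j).pos)
  refine ⟨∏ j, e j, ht, ?_⟩
  have : Finite (GaloisField 2 (∏ j, e j)) := inferInstance
  letI : Fintype (GaloisField 2 (∏ j, e j)) := Fintype.ofFinite _
  have hK : Fintype.card (GaloisField 2 (∏ j, e j)) = 2 ^ ∏ j, e j := by
    rw [← Nat.card_eq_fintype_card, GaloisField.card 2 _ ht.ne']
  obtain ⟨P, h1, h2, h3, h4⟩ := main (Nat.succ_pos N) (fun j => e j) hgp hg5 e.injective hK
  exact ⟨P, h1, h2, h3, fun k' hk' => lt_trans (Nat.lt_succ_self N) (h4 k' hk')⟩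

end Pool.Agent.Results.MP_cb1103_lc.SingleOrbitUnbounded
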